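import Pool.Agent.Helper65.TU.Stmts

/-! # Row ES of TU (MP_5c2ead_an): weakly compact sets are weakly sequentially compact -/

set_option autoImplicit false

open Set Filter Topology

namespace Pool.Agent.Helper65.TU

universe u

namespace S63

section
variable {X : Type u} [NormedAddCommGroup X] [NormedSpace ℝ X]

theorem wcont (f : X →L[ℝ] ℝ) :
    Continuous (fun y : WeakSpace ℝ X => f ((toWeakSpace ℝ X).symm y)) :=
  WeakBilin.eval_continuous (topDualPairing ℝ X).flip f

/-- countably many functionals separate the points of a separable subspace -/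
theorem sep (Y : Submodule ℝ X) (hY : TopologicalSpace.IsSeparable (Y : Set X)) :
    ∃ f : ℕ → (X →L[ℝ] ℝ), ∀ y ∈ Y, (∀ i, f i y = 0) → y = 0 := by
  obtain ⟨c, hc, hYc⟩ := hY
  have hne : c.Nonempty := by
    by_contra h
    rw [not_nonempty_iff_eq_empty] at h
    rw [h, closure_empty] at hYc
    exact hYc Y.zero_mem
  obtain ⟨d, hd⟩ := hc.exists_eq_range hne
  choose g hg1 hg2 using fun i => exists_dual_vector'' ℝ (d i)
  refine ⟨g, fun y hy h => ?_⟩
  rw [← norm_eq_zero]
  refine le_antisymm (le_of_forall_pos_le_add fun ε hε => ?_) (norm_nonneg _)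
  obtain ⟨w, hw, hyw⟩ := Metric.mem_closure_iff.1 (hYc hy) (ε / 2) (by positivity)
  rw [hd] at hw
  obtain ⟨i, rfl⟩ := hw
  rw [dist_eq_norm] at hyw
  have h1 : ‖y‖ ≤ ‖y - d i‖ + ‖d i‖ := by
    calc ‖y‖ = ‖(y - d i) + d i‖ := by rw [sub_add_cancel]
      _ ≤ _ := norm_add_le _ _
  have h2 : ‖d i‖ ≤ ‖y - d i‖ := by
    have h3 : g i (d i) = g i (d i - y) := by rw [map_sub, h i, sub_zero]
    have h4 : ‖g i (d i - y)‖ ≤ 1 * ‖d i - y‖ := (g i).le_of_opNorm_le (hg1 i) _
    have h5 : (‖d i‖ : ℝ) = g i (d i) := (hg2 i).symm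
    rw [h5, h3]
    calc g i (d i - y) ≤ ‖g i (d i - y)‖ := le_abs_self _
      _ ≤ ‖y - d i‖ := by rw [norm_sub_rev y]; linarith
  linarith

theorem closed (Y : Submodule ℝ X) (hY : IsClosed (Y : Set X)) :
    IsClosed (toWeakSpace ℝ X '' (Y : Set X)) := by
  rw [← closure_eq_iff_isClosed, ← Convex.toWeakSpace_closure (𝕜 := ℝ) Y.convex, hY.closure_eq]

end

end S63

open S63 in
theorem st_ES : ST_ES := by
  intro X _ _ K hK x hx
  obtain ⟨Y, hY⟩ : ∃ Y : Submodule ℝ X, Y = (Submodule.span ℝ (range x)).topologicalClosure :=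
    ⟨_, rfl⟩
  have hxY : ∀ n, x n ∈ Y := fun n => by
    rw [hY]
    exact Submodule.le_topologicalClosure _ (Submodule.subset_span ⟨n, rfl⟩)
  have hYc : IsClosed (Y : Set X) := by
    rw [hY]
    exact Submodule.isClosed_topologicalClosure _
  have hYs : TopologicalSpace.IsSeparable (Y : Set X) := by
    rw [hY, Submodule.topologicalClosure_coe]
    exact ((countable_range x).isSeparable.span).closure
  obtain ⟨f, hf⟩ := sep Y hYs
  have hcomp : IsCompact (Set.pi univ fun i => (fun y => f i y) '' K) := by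
    refine isCompact_univ_pi fun i => ?_
    have h1 := hK.image (wcont (f i))
    rw [image_image] at h1
    simpa using h1
  obtain ⟨a, _, φ, hφ, hlim⟩ := hcomp.tendsto_subseq (x := fun n i => f i (x n))
    (fun n i _ => ⟨x n, hx n, rfl⟩)
  obtain ⟨l, hl⟩ : ∃ l : Filter (WeakSpace ℝ X),
    l = map (fun k => toWeakSpace ℝ X (x (φ k))) atTop := ⟨_, rfl⟩
  have hln : l.NeBot := by
    rw [hl]
    infer_instance
  have hlK : toWeakSpace ℝ X '' K ∈ l := by
    rw [hl, mem_map]
    exact univ_mem' fun k => ⟨x (φ k), hx _, rfl⟩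
  obtain ⟨z, hz, hcl⟩ := hK (le_principal_iff.2 hlK)
  have key : ∀ w : WeakSpace ℝ X, ClusterPt w l → (toWeakSpace ℝ X).symm w ∈ Y ∧
      ∀ i, f i ((toWeakSpace ℝ X).symm w) = a i := by
    intro w hw
    constructor
    · have h1 : w ∈ toWeakSpace ℝ X '' (Y : Set X) := by
        refine isClosed_iff_clusterPt.1 (closed Y hYc) w (hw.mono (le_principal_iff.2 ?_))
        rw [hl, mem_map]
        exact univ_mem' fun k => ⟨x (φ k), hxY _, rfl⟩
      obtain ⟨y, hy, rfl⟩ := h1
      rw [LinearEquiv.symm_apply_apply]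
      exact hy
    · intro i
      have h1 : Tendsto (fun y : WeakSpace ℝ X => f i ((toWeakSpace ℝ X).symm y)) l (𝓝 (a i)) := by
        rw [hl, tendsto_map'_iff]
        exact tendsto_pi_nhds.1 hlim i
      have h2 := hw.map (wcont (f i)).continuousAt h1
      exact eq_of_nhds_neBot h2
  have huniq : ∀ w ∈ toWeakSpace ℝ X '' K, ClusterPt w l → w = z := by
    intro w _ hw
    obtain ⟨h1, h2⟩ := key w hw
    obtain ⟨h3, h4⟩ := key z hcl
    have h5 := hf _ (Y.sub_mem h1 h3) fun i => by rw [map_sub, h2 i, h4 i, sub_self]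
    rw [← map_sub] at h5
    have h6 := (LinearEquiv.map_eq_zero_iff (toWeakSpace ℝ X).symm).1 h5
    exact sub_eq_zero.1 h6
  have hle : l ≤ 𝓝 z := hK.le_nhds_of_unique_clusterPt hlK huniq
  obtain ⟨z', hz', rfl⟩ := hz
  refine ⟨φ, hφ, z', hz', fun g => ?_⟩
  have h1 : Tendsto (fun k => toWeakSpace ℝ X (x (φ k))) atTop (𝓝 (toWeakSpace ℝ X z')) := by
    rw [hl] at hle
    exact hle
  exact ((wcont g).tendsto _).comp h1

end Pool.Agent.Helper65.TU
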